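import Pool.Agent.Helper90.MZ.StmtsA

/-!
Module SRDA: descent, the set of least rank.
-/

set_option autoImplicit false

namespace Pool.Agent.Helper90.MZ

open Pool.Agent.Helper90.TS

/-- points have rank zero over themselves -/
theorem srda_rk0 {V G : Type} [Group G] [MulAction G V] (X : Ctx V G) (A : Set V) {ι : Type}
    [Finite ι] (y : ι → V) : X.rk (A ∪ Set.range y) y = 0 := by
  have h1 : X.Ov (A ∪ Set.range y) ({y} : Set (ι → V)) :=
    ov_mono X Set.subset_union_right (ov_singleton y)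
  refine le_antisymm ((a_rkb V G X ι y).2.1 _ {y} 0 h1 rfl ?_) bot_le
  rw [rge_iff]
  rintro ⟨-, -, h⟩
  obtain ⟨F, hF, hd, hr⟩ := h 0 (Order.lt_succ _)
  have hz := (a_rbas V G X ι).2.2.2.1
  obtain ⟨a, ha⟩ := ((hz (F 0)).1 (hr 0)).2
  obtain ⟨b, hb⟩ := ((hz (F 1)).1 (hr 1)).2
  have ea : a = y := hF 0 ha
  have eb : b = y := hF 1 hb
  rw [ea] at ha
  rw [eb] at hb
  exact Set.disjoint_left.1 (hd 0 1 zero_ne_one) ha hb

/-- some set over `M` is not orthogonal -/
theorem srda_ex (h3 : ST_RLB) {V G : Type} [Group G] [MulAction G V] (X : Ctx V G) (M : Set V)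
    (s : Ty V) (hM : Mdl X M) (hs : SR X s) :
    ∃ E : Set (Fin 1 → V), X.Ov M E ∧ ¬ OrF X s M E := by
  obtain ⟨E, hE, hz⟩ := ov_sort (X := X) s.z
  refine ⟨E, ov_mono X (Set.empty_subset _) hE, ?_⟩
  intro hor
  obtain ⟨y, hy⟩ := (h3 V G X s hs M hM.1).1
  have hyE : y ∈ E := by
    obtain ⟨g, _, hg⟩ := hy.1
    rw [← hg]
    exact hE.2 g (by rw [fx_empty]; exact Subgroup.mem_top _) _ hz
  have hsi := hor M hM.1 le_rfl y hyE y hy
  have hA : (s.A ∪ M).Countable := hs.cnt.union hM.1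
  have h4 := (rk_si (X := X) (b := y) hA (Set.countable_range y)).2 hsi
  rw [srda_rk0] at h4
  have h5 := ((h3 V G X s hs M hM.1).2.2.2.2.2.2.2.2 y hy).1
  exact hs.nal (by rw [← h5, ← h4])

/-- descent on the degree -/
theorem srda_deg (h1 : ST_OFA) (h2 : ST_MDLB) {V G : Type} [Group G] [MulAction G V]
    (X : Ctx V G) (M : Set V) (s : Ty V) (hM : Mdl X M) (α : Ordinal.{0})
    (hmin : ∀ E : Set (Fin 1 → V), X.Ov M E → ¬ X.Rge α E → OrF X s M E) :
    ∀ (m : ℕ) (E : Set (Fin 1 → V)), X.Ov M E → ¬ X.Rge (Order.succ α) E →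
      (∀ F' : Fin (m + 1) → Set (Fin 1 → V), (∀ i, F' i ⊆ E) →
        (∀ i j, i ≠ j → Disjoint (F' i) (F' j)) → ∃ i, ¬ X.Rge α (F' i)) →
      ¬ OrF X s M E → ∃ θ : Set (Fin 1 → V), X.Ov M θ ∧ X.Dg1 α θ ∧ ¬ OrF X s M θ := by
  intro m
  induction m with
  | zero =>
    intro E hE _ hF hor
    obtain ⟨i, hi⟩ := hF (fun _ => E) (fun _ => le_rfl) (by
      intro i j hij
      exact absurd (Subsingleton.elim (α := Fin 1) i j) hij)
    exact absurd (hmin E hE hi) hor
  | succ m ih =>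
    intro E hE hnr hF hor
    have hr : X.Rge α E := by
      by_contra hc
      exact hor (hmin E hE hc)
    obtain ⟨x, hx, hxr⟩ := a_gen V G X M hM.1 (Fin 1) α E hE hr hnr
    obtain ⟨D', hD', hxD, hdg⟩ := (h2 V G X).2.2.2.1 M hM (Fin 1) x
    rw [hxr] at hdg
    have hmono := (a_rbas V G X (Fin 1)).1
    have hDE : X.Ov M (E ∩ D') := ov_inter hE hD'
    have hdiff : X.Ov M (E \ D') := ov_diff hE hD'
    have hRge : X.Rge α (E ∩ D') := by
      have := (a_rkb V G X (Fin 1) x).2.2.1 M (E ∩ D') hDE ⟨hx, hxD⟩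
      rwa [hxr] at this
    have hDg : X.Dg1 α (E ∩ D') := by
      refine ⟨hRge, fun h => hdg.2.1 (hmono _ _ _ hD'.1 Set.inter_subset_right h), ?_⟩
      intro E1 F1 hE1 hF1 hd hE2 hF2
      exact hdg.2.2 E1 F1 (hE1.trans Set.inter_subset_right) (hF1.trans Set.inter_subset_right)
        hd hE2 hF2
    by_cases hor1 : OrF X s M (E ∩ D')
    · have hor2 : ¬ OrF X s M (E \ D') := by
        intro hc
        have := (h1 V G X).1 s M (E ∩ D') (E \ D') hor1 hc
        rw [Set.inter_union_sdiff] at this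
        exact hor this
      refine ih (E \ D') hdiff (fun h => hnr (hmono _ _ _ hE.1 Set.sdiff_subset h)) ?_ hor2
      intro F' hF' hd
      obtain ⟨i, hi⟩ := hF (Fin.cons (E ∩ D') F') (by
        intro i
        refine Fin.cases ?_ ?_ i
        · rw [Fin.cons_zero]
          exact Set.inter_subset_left
        · intro j
          rw [Fin.cons_succ]
          exact (hF' j).trans Set.sdiff_subset) (by
        intro i j
        refine Fin.cases ?_ ?_ i
        · refine Fin.cases ?_ ?_ j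
          · intro h
            exact absurd rfl h
          · intro j _
            rw [Fin.cons_zero, Fin.cons_succ, Set.disjoint_left]
            intro a ha hb
            exact (hF' j hb).2 ha.2
        · intro i
          refine Fin.cases ?_ ?_ j
          · intro _
            rw [Fin.cons_zero, Fin.cons_succ, Set.disjoint_left]
            intro a ha hb
            exact (hF' i ha).2 hb.2
          · intro j h
            rw [Fin.cons_succ, Fin.cons_succ]
            exact hd i j (fun h' => h (by rw [h'])))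
      revert hi
      refine Fin.cases ?_ ?_ i
      · intro hi
        rw [Fin.cons_zero] at hi
        exact absurd hRge hi
      · intro j hi
        rw [Fin.cons_succ] at hi
        exact ⟨j, hi⟩
    · exact ⟨E ∩ D', hDE, hDg, hor1⟩

theorem st_SRDA (h1 : ST_OFA) (h2 : ST_MDLB) (h3 : ST_RLB) : ST_SRDA := by
  intro V G _ _ X M s hM hs
  have hne : ∀ E : Set (Fin 1 → V), ¬ OrF X s M E → E.Nonempty := by
    intro E h
    by_contra hc
    rw [Set.not_nonempty_iff_eq_empty] at hc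
    apply h
    intro B _ _ b hb
    rw [hc] at hb
    exact hb.elim
  let S : Set Ordinal.{0} := {α | ∃ E : Set (Fin 1 → V), X.Ov M E ∧ ¬ OrF X s M E ∧
    ∀ β : Ordinal.{0}, X.Rge β E ↔ β ≤ α}
  have hS : S.Nonempty := by
    obtain ⟨E, hE, hor⟩ := srda_ex h3 X M s hM hs
    obtain ⟨ρ, hρ⟩ := a_rfin V G X (Fin 1) E hE.1 (hne E hor)
    exact ⟨ρ, E, hE, hor, hρ⟩
  obtain ⟨E, hE, hor, hrk⟩ := csInf_mem hS
  set α := sInf S with hα
  have hmin : ∀ E : Set (Fin 1 → V), X.Ov M E → ¬ X.Rge α E → OrF X s M E := by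
    intro E' hE' hr
    by_contra hc
    obtain ⟨ρ, hρ⟩ := a_rfin V G X (Fin 1) E' hE'.1 (hne E' hc)
    have hlt : ρ < α := by
      rw [← not_le]
      intro h
      exact hr ((hρ α).2 h)
    exact absurd (csInf_le' (show ρ ∈ S from ⟨E', hE', hc, hρ⟩)) (not_le.2 hlt)
  have hr : X.Rge α E := (hrk α).2 le_rfl
  have hnr : ¬ X.Rge (Order.succ α) E := fun h => absurd ((hrk _).1 h) (not_le.2 (Order.lt_succ α))
  obtain ⟨m, F, _, _, _, _, hF⟩ := a_rdeg V G X (Fin 1) α E hr hnr
  obtain ⟨θ, hθ1, hθ2, hθ3⟩ := srda_deg h1 h2 X M s hM α hmin m E hE hnr hF hor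
  exact ⟨α, θ, hθ1, hθ2, hθ3, hmin⟩

end Pool.Agent.Helper90.MZ
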